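import Mathlib

set_option autoImplicit false

/-!
Every finite graph `G` of order `n` satisfies `α_bn(G) ≤ n - δ(G)`.
-/

namespace Pool.Agent.Results.MP_8bdd73_co.BnUpperBound

open SimpleGraph

variable {V : Type*}

/-- On a shortest path every distance occurs. -/
theorem exists_dist_eq (G : SimpleGraph V) (v w : V) (h : G.Reachable v w) (j : ℕ)
    (hj : j ≤ G.dist v w) : ∃ u, G.Reachable v u ∧ G.dist v u = j := by
  obtain ⟨p, hp⟩ := h.exists_walk_length_eq_dist
  refine ⟨p.getVert j, (p.take j).reachable, ?_⟩
  have h1 : G.dist v (p.getVert j) ≤ j := by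
    have := dist_le (p.take j)
    rw [Walk.take_length] at this
    exact this.trans (min_le_left _ _)
  have h2 : G.dist (p.getVert j) w ≤ G.dist v w - j := by
    have := dist_le (p.drop j)
    rwa [Walk.drop_length, hp] at this
  have h3 : G.dist v w ≤ G.dist v (p.getVert j) + G.dist (p.getVert j) w :=
    (p.take j).reachable.dist_triangle_left w
  omega

variable [Fintype V]

/-- The eccentricity of `v` inside its own component: the largest distance from `v` to a vertex of
the component of `v` (Mathlib's `G.dist v w` is `0` when `w` lies in another component). -/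
noncomputable def ecc (G : SimpleGraph V) (v : V) : ℕ :=
  Finset.univ.sup (fun w => G.dist v w)

/-- `f` is a broadcast on `G`: it takes the value `1` on every component `K_1`, and
`0 ≤ f v ≤ e(v)` at every vertex `v` of a larger component (so `f v` is at most the diameter). -/
def IsBroadcast (G : SimpleGraph V) (f : V → ℕ) : Prop :=
  ∀ v, ((∀ w, ¬ G.Adj v w) → f v = 1) ∧ ((∃ w, G.Adj v w) → f v ≤ ecc G v)

/-- `N_f(v)`: the vertices at distance at most `f v` from `v`. -/
def hears (G : SimpleGraph V) (f : V → ℕ) (v : V) : Set V := {u | G.edist u v ≤ (f v : ℕ∞)}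

/-- `B_f(v)`: the vertices at distance exactly `f v` from `v`. -/
def bdry (G : SimpleGraph V) (f : V → ℕ) (v : V) : Set V := {u | G.edist u v = (f v : ℕ∞)}

/-- `f` is boundary independent: for distinct broadcasting vertices `u, v` (positive value),
`N_f(u) ∩ N_f(v) ⊆ B_f(u) ∩ B_f(v)`. -/
def BnIndependent (G : SimpleGraph V) (f : V → ℕ) : Prop :=
  ∀ u v, u ≠ v → 0 < f u → 0 < f v → hears G f u ∩ hears G f v ⊆ bdry G f u ∩ bdry G f v

/-- The boundary independence number `α_bn(G)`: the largest weight of a boundary independent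
broadcast on `G`. -/
noncomputable def alphaBn (G : SimpleGraph V) : ℕ :=
  sSup {m | ∃ f : V → ℕ, IsBroadcast G f ∧ BnIndependent G f ∧ m = ∑ v, f v}

/-- The open ball around `v` as a finset. -/
noncomputable def inner (G : SimpleGraph V) (f : V → ℕ) (v : V) : Finset V := by
  classical
  exact Finset.univ.filter (fun u => G.edist u v < (f v : ℕ∞))

theorem mem_inner (G : SimpleGraph V) (f : V → ℕ) (u v : V) :
    u ∈ inner G f v ↔ G.edist u v < (f v : ℕ∞) := by
  simp [inner]

theorem mem_inner_of_dist (G : SimpleGraph V) (f : V → ℕ) (u v : V) (hr : G.Reachable v u)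
    (h : G.dist v u < f v) : u ∈ inner G f v := by
  rw [mem_inner, edist_comm, ← hr.coe_dist_eq_edist]
  exact_mod_cast h

theorem inner_disjoint (G : SimpleGraph V) (f : V → ℕ) (hf : BnIndependent G f) (u v : V)
    (huv : u ≠ v) (hu : 0 < f u) (hv : 0 < f v) (w : V) (hw : G.edist w u ≤ (f u : ℕ∞))
    (hwv : w ∈ inner G f v) : False := by
  rw [mem_inner] at hwv
  have := hf u v huv hu hv ⟨hw, hwv.le⟩
  exact absurd this.2 hwv.ne

theorem exists_far (G : SimpleGraph V) (f : V → ℕ) (v : V) (hb : f v ≤ ecc G v) (h0 : 0 < f v) :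
    ∃ w, G.Reachable v w ∧ f v ≤ G.dist v w := by
  classical
  obtain ⟨w, -, hw⟩ := Finset.exists_mem_eq_sup (Finset.univ : Finset V) ⟨v, Finset.mem_univ v⟩
    (fun w => G.dist v w)
  have h1 : f v ≤ G.dist v w := by
    rw [← hw]; exact hb
  exact ⟨w, Reachable.of_dist_ne_zero (by omega), h1⟩

/-- Vertices at each distance `j < f v`, or `j ≤ f v` if `v` is not isolated. -/
theorem exists_layer (G : SimpleGraph V) (f : V → ℕ) (v : V) (hb : f v ≤ ecc G v) (h0 : 0 < f v)
    (j : ℕ) : ∃ u, j ≤ f v → (G.Reachable v u ∧ G.dist v u = j) := by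
  obtain ⟨w, hw, h1⟩ := exists_far G f v hb h0
  by_cases hj : j ≤ f v
  · obtain ⟨u, hu⟩ := exists_dist_eq G v w hw j (hj.trans h1)
    exact ⟨u, fun _ => hu⟩
  · exact ⟨v, fun h => absurd h hj⟩

theorem card_inner_ge (G : SimpleGraph V) (f : V → ℕ) (hf : IsBroadcast G f) (v : V)
    : f v ≤ (inner G f v).card := by
  classical
  by_cases hiso : ∃ w, G.Adj v w
  · by_cases h0 : 0 < f v
    · have hb := (hf v).2 hiso
      choose g hg using exists_layer G f v hb h0
      have hg1 := fun j hj => (hg j hj).1
      have hg2 := fun j hj => (hg j hj).2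
      have : (Finset.range (f v)).image g ⊆ inner G f v := by
        intro u hu
        obtain ⟨j, hj, rfl⟩ := Finset.mem_image.1 hu
        have hj' := Finset.mem_range.1 hj
        apply mem_inner_of_dist G f _ v (hg1 j hj'.le)
        rw [hg2 j hj'.le]; exact hj'
      have h2 := Finset.card_le_card this
      rw [Finset.card_image_of_injOn, Finset.card_range] at h2
      · exact h2
      · intro a ha b hb' hab
        have ha' := Finset.mem_range.1 ha
        have hb'' := Finset.mem_range.1 hb'
        rw [← hg2 a ha'.le, ← hg2 b hb''.le, hab]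
    · omega
  · have h1 : f v = 1 := (hf v).1 (by push Not at hiso; exact hiso)
    have : v ∈ inner G f v := by
      rw [mem_inner]; simp [h1]
    rw [h1]
    exact Finset.card_pos.2 ⟨v, this⟩

theorem card_inner_ge' (G : SimpleGraph V) [DecidableRel G.Adj] (f : V → ℕ)
    (hf : IsBroadcast G f) (v : V) (h2 : 2 ≤ f v) : f v + G.degree v ≤ (inner G f v).card + 1 := by
  classical
  have hiso : ∃ w, G.Adj v w := by
    by_contra h
    have h1 : f v = 1 := (hf v).1 (by push Not at h; exact h)
    omega
  have hb := (hf v).2 hiso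
  choose g hg using exists_layer G f v hb (by omega)
  have hg1 := fun j hj => (hg j hj).1
  have hg2 := fun j hj => (hg j hj).2
  have hsub : insert v (G.neighborFinset v) ∪ (Finset.Ico 2 (f v)).image g ⊆ inner G f v := by
    intro u hu
    rw [Finset.mem_union, Finset.mem_insert, mem_neighborFinset] at hu
    rcases hu with (rfl | hu) | hu
    · exact mem_inner_of_dist G f _ _ (Reachable.refl _) (by rw [dist_self]; omega)
    · apply mem_inner_of_dist G f _ _ hu.reachable
      rw [dist_eq_one_iff_adj.2 hu]; omega
    · obtain ⟨j, hj, rfl⟩ := Finset.mem_image.1 hu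
      have hj' := Finset.mem_Ico.1 hj
      apply mem_inner_of_dist G f _ v (hg1 j hj'.2.le)
      rw [hg2 j hj'.2.le]; exact hj'.2
  have hdisj : Disjoint (insert v (G.neighborFinset v)) ((Finset.Ico 2 (f v)).image g) := by
    rw [Finset.disjoint_left]
    intro u hu hu'
    obtain ⟨j, hj, rfl⟩ := Finset.mem_image.1 hu'
    have hj' := Finset.mem_Ico.1 hj
    have hd := hg2 j hj'.2.le
    rw [Finset.mem_insert, mem_neighborFinset] at hu
    rcases hu with hu | hu
    · rw [hu, dist_self] at hd; omega
    · rw [dist_eq_one_iff_adj.2 hu] at hd; omega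
  have hcard := Finset.card_le_card hsub
  rw [Finset.card_union_of_disjoint hdisj, Finset.card_insert_of_notMem (by simp),
    card_neighborFinset_eq_degree, Finset.card_image_of_injOn, Nat.card_Ico] at hcard
  · omega
  · intro a ha b hb' hab
    have ha' := Finset.mem_Ico.1 ha
    have hb'' := Finset.mem_Ico.1 hb'
    rw [← hg2 a ha'.2.le, ← hg2 b hb''.2.le, hab]

theorem weight_add_minDegree_le (G : SimpleGraph V) [DecidableRel G.Adj] [Nonempty V] (f : V → ℕ)
    (hf : IsBroadcast G f) (hi : BnIndependent G f) :
    ∑ v, f v + G.minDegree ≤ Fintype.card V := by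
  classical
  -- the broadcasting vertices
  set P : Finset V := Finset.univ.filter (fun v => 0 < f v) with hP
  have hsum : ∑ v, f v = ∑ v ∈ P, f v := by
    rw [hP, Finset.sum_filter]
    apply Finset.sum_congr rfl
    intro v _
    split_ifs with h
    · rfl
    · omega
  have hpd : (P : Set V).PairwiseDisjoint (inner G f) := by
    intro u hu v hv huv
    rw [Function.onFun, Finset.disjoint_left]
    intro w hwu hwv
    have hu' : 0 < f u := by simpa [hP] using hu
    have hv' : 0 < f v := by simpa [hP] using hv
    exact inner_disjoint G f hi u v huv hu' hv' w ((mem_inner G f w u).1 hwu).le hwv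
  have hcardU : (P.biUnion (inner G f)).card = ∑ v ∈ P, (inner G f v).card :=
    Finset.card_biUnion (fun u hu v hv huv => hpd hu hv huv)
  by_cases h2 : ∃ v, 2 ≤ f v
  · obtain ⟨v, hv⟩ := h2
    have hvP : v ∈ P := by simp [hP]; omega
    -- a boundary vertex of `v` lies in no open ball
    have hiso : ∃ w, G.Adj v w := by
      by_contra h
      have h1 : f v = 1 := (hf v).1 (by push Not at h; exact h)
      omega
    obtain ⟨b, hb⟩ := exists_layer G f v ((hf v).2 hiso) (by omega) (f v)
    obtain ⟨hb1, hb2⟩ := hb le_rfl
    have hbe : G.edist b v = (f v : ℕ∞) := by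
      rw [edist_comm, ← hb1.coe_dist_eq_edist, hb2]
    have hbn : b ∉ P.biUnion (inner G f) := by
      intro hb
      obtain ⟨u, hu, hbu⟩ := Finset.mem_biUnion.1 hb
      by_cases huv : u = v
      · subst huv
        rw [mem_inner, hbe] at hbu
        exact lt_irrefl _ hbu
      · have hu' : 0 < f u := by simpa [hP] using hu
        exact inner_disjoint G f hi v u (Ne.symm huv) (by omega) hu' b hbe.le hbu
    have hlt : (P.biUnion (inner G f)).card + 1 ≤ Fintype.card V := by
      rw [← Finset.card_insert_of_notMem hbn]
      exact Finset.card_le_univ _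
    have hdeg := G.minDegree_le_degree v
    have h3 := card_inner_ge' G f hf v hv
    have hs1 : ∑ u ∈ P, f u = ∑ u ∈ P.erase v, f u + f v :=
      (Finset.sum_erase_add P f hvP).symm
    have hs2 : ∑ u ∈ P, (inner G f u).card
        = ∑ u ∈ P.erase v, (inner G f u).card + (inner G f v).card :=
      (Finset.sum_erase_add P (fun u => (inner G f u).card) hvP).symm
    have hs3 : ∑ u ∈ P.erase v, f u ≤ ∑ u ∈ P.erase v, (inner G f u).card :=
      Finset.sum_le_sum (fun u _ => card_inner_ge G f hf u)
    omega
  · push Not at h2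
    -- all values are at most one
    have hval : ∀ v ∈ P, f v = 1 := by
      intro v hv
      have hv' : 0 < f v := by simpa [hP] using hv
      have := h2 v
      omega
    have hs : ∑ v, f v = P.card := by
      rw [hsum, Finset.sum_congr rfl hval]; simp
    by_cases hne : P.Nonempty
    · obtain ⟨v, hv⟩ := hne
      have hdisj : Disjoint P (G.neighborFinset v) := by
        rw [Finset.disjoint_left]
        intro u hu huv
        rw [mem_neighborFinset] at huv
        have huv' : v ≠ u := huv.ne
        have h1 : G.edist u v ≤ (f v : ℕ∞) := by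
          rw [hval v hv, edist_comm]
          have := edist_eq_one_iff_adj.2 huv
          rw [this]; simp
        have h3 : u ∈ inner G f u := by
          rw [mem_inner, hval u hu]; simp
        exact inner_disjoint G f hi v u huv' (by rw [hval v hv]; omega)
          (by rw [hval u hu]; omega) u h1 h3
      have hcard := Finset.card_le_univ (P ∪ G.neighborFinset v)
      rw [Finset.card_union_of_disjoint hdisj, card_neighborFinset_eq_degree] at hcard
      have hdeg := G.minDegree_le_degree v
      omega
    · rw [Finset.not_nonempty_iff_eq_empty] at hne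
      rw [hs, hne, Finset.card_empty]
      obtain ⟨v⟩ := ‹Nonempty V›
      have hdeg := G.minDegree_le_degree v
      have := G.degree_lt_card_verts v
      omega

/-- Sanity check: the supremum defining `α_bn(G)` is a maximum. -/
theorem alphaBn_isGreatest (G : SimpleGraph V) [Nonempty V] :
    IsGreatest {m | ∃ f : V → ℕ, IsBroadcast G f ∧ BnIndependent G f ∧ m = ∑ v, f v}
      (alphaBn G) := by
  classical
  have hne : {m | ∃ f : V → ℕ, IsBroadcast G f ∧ BnIndependent G f ∧ m = ∑ v, f v}.Nonempty := by
    refine ⟨_, fun v => if ∃ w, G.Adj v w then 0 else 1, ?_, ?_, rfl⟩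
    · intro v
      constructor
      · intro h
        have : ¬ ∃ w, G.Adj v w := by push Not; exact h
        simp [this]
      · intro h
        simp [h]
    · intro u v huv hu hv w hw
      have hu' : ¬ ∃ w, G.Adj u w := by
        intro h; simp [h] at hu
      have hv' : ¬ ∃ w, G.Adj v w := by
        intro h; simp [h] at hv
      have key : ∀ a b : V, (¬ ∃ w, G.Adj a w) → G.edist b a ≤ 1 → b = a := by
        intro a b ha hb
        rcases edist_le_one_iff_adj_or_eq.1 hb with h | h
        · exact absurd ⟨b, h.symm⟩ ha
        · exact h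
      have h1 : w = u := key u w hu' (by simpa [hears, hu'] using hw.1)
      have h2 : w = v := key v w hv' (by simpa [hears, hv'] using hw.2)
      exact absurd (h1.symm.trans h2) huv
  have hbdd : BddAbove {m | ∃ f : V → ℕ, IsBroadcast G f ∧ BnIndependent G f ∧ m = ∑ v, f v} := by
    refine ⟨Fintype.card V, ?_⟩
    rintro m ⟨f, hf, hi, rfl⟩
    have := weight_add_minDegree_le G f hf hi
    omega
  exact ⟨Nat.sSup_mem hne hbdd, fun m hm => le_csSup hbdd hm⟩

/-- Every finite graph of order `n ≥ 1` satisfies `α_bn(G) ≤ n - δ(G)`. -/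
theorem result (G : SimpleGraph V) [DecidableRel G.Adj] [Nonempty V] :
    alphaBn G ≤ Fintype.card V - G.minDegree := by
  classical
  apply csSup_le'
  rintro m ⟨f, hf, hi, rfl⟩
  have := weight_add_minDegree_le G f hf hi
  omega

end Pool.Agent.Results.MP_8bdd73_co.BnUpperBound
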